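import Mathlib
import Pool.Agent.XIU.SLT

/-! Quantitative Grimmett-Marstrand theorem. -/

open Finset MeasureTheory
open Pool.Agent.Perc Pool.Agent.PercM

namespace Pool.Agent.Results.MP_e13933_pr.SlabThreshold

theorem result {d : ℕ} (hd : 3 ≤ d) :
    ∃ C : ℝ, 0 < C ∧ ∀ p : unitInterval, pc d < p →
      mu d p {ω | (cluster (ω ∩ {x | ∀ i : Fin d, 2 ≤ i.val → |x i| ≤
        ((⌊Real.exp (C / ((p : ℝ) - pc d) * Real.log (2 / ((p : ℝ) - pc d)))⌋₊ : ℕ) : ℤ)})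
          0).Infinite} ≠ 0 :=
  XIU.slab_threshold (by omega)

end Pool.Agent.Results.MP_e13933_pr.SlabThreshold
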